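import Pool.Agent.Helper6.MONO.Stmts2
import Pool.Agent.Helper48.MONO.TLE
import Pool.Agent.Helper41.MONO.ACT

/-!
Module DSP2 (`MP_c75db0_gt`): displacement and word length.
-/

set_option autoImplicit false
noncomputable section
namespace Pool.Agent.Helper6.MONO.S

theorem st_DSP : ST_DSP := by
  intro h1 h2 e he
  have hx0 : Neg (![0, 0, 1] : V3) := by simp [Neg, hf]
  obtain ⟨x0, hx⟩ : ∃ x0 : V3, Neg x0 := ⟨_, hx0⟩
  have hR : ∀ i, Neg (refl (e i) x0) := fun i => tle_neg (act_refl_pres (e i) (he i)) hx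
  have hnn : ∀ i, 0 ≤ hd x0 (refl (e i) x0) := fun i => tle_nonneg h1 hx (hR i)
  obtain ⟨D, hD⟩ : ∃ D : ℝ, D = 1 + ∑ i, hd x0 (refl (e i) x0) := ⟨_, rfl⟩
  have hsum : 0 ≤ ∑ i, hd x0 (refl (e i) x0) := Finset.sum_nonneg (fun i _ => hnn i)
  have hDi : ∀ i, hd x0 (refl (e i) x0) ≤ D := by
    intro i
    have := Finset.single_le_sum (f := fun i => hd x0 (refl (e i) x0)) (fun i _ => hnn i)
      (Finset.mem_univ i)
    linarith
  have key : ∀ v : List (Fin 3), Neg (act e v x0) ∧ hd x0 (act e v x0) ≤ D * v.length := by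
    intro v
    induction v with
    | nil =>
      refine ⟨hx, ?_⟩
      have h3 : hd x0 (act e [] x0) = 0 := tle_hd_self hx
      rw [h3]
      simp
    | cons i v ih =>
      obtain ⟨i1, i2⟩ := ih
      have h3 : act e (i :: v) x0 = refl (e i) (act e v x0) := rfl
      have h4 : Neg (refl (e i) (act e v x0)) := tle_neg (act_refl_pres (e i) (he i)) i1
      refine ⟨by rw [h3]; exact h4, ?_⟩
      rw [h3]
      have h5 := h1 x0 (refl (e i) x0) (refl (e i) (act e v x0)) hx (hR i) h4
      have h6 : hd (refl (e i) x0) (refl (e i) (act e v x0)) = hd x0 (act e v x0) :=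
        tle_hd (act_refl_pres (e i) (he i)) x0 (act e v x0)
      rw [h6] at h5
      have h7 := hDi i
      rw [List.length_cons]
      push_cast
      linarith
  refine ⟨D, by rw [hD]; linarith, fun g hg k v hv => ?_⟩
  have h3 := tle_le h1 h2 hg hx k
  have h4 : (g ^ (2 ^ k) : E3) x0 = act e v x0 := hv x0
  rw [h4] at h3
  exact h3.trans (key v).2

end Pool.Agent.Helper6.MONO.S
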